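import Pool.Agent.W285.UB.Stm

/-!
Project UB, task DEG: number of degenerate pairs of forms.
-/

set_option autoImplicit false

namespace Pool.Agent.W214.UB

open Pool.Agent.W285.UB NumberField Height Module Pool.Agent.Helper259.AbsHt

set_option linter.unusedSectionVars false

variable {K : Type} [Field K] [NumberField K]

lemma io_inj (ι : K →+* Qbar) : Function.Injective (io ι) := by
  unfold io
  rw [RingHom.coe_comp]
  exact ι.injective.comp (FaithfulSMul.algebraMap_injective (𝓞 K) K)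

lemma fval_smul (ι : K →+* Qbar) {d : ℕ} (f : Fin (d + 1) → 𝓞 K) (c : Qbar) (v : Fin 2 → Qbar) :
    fval (io ι) f (fun a => c * v a) = c ^ d * fval (io ι) f v := by
  unfold fval
  rw [Finset.mul_sum]
  refine Finset.sum_congr rfl fun i _ => ?_
  have h : c ^ d = c ^ (i : ℕ) * c ^ (d - i) := by
    rw [← pow_add]
    congr 1
    have := i.2
    omega
  rw [h, mul_pow, mul_pow]
  ring

/-- zeros of a family with a given common zero are determined by the other coefficients -/
lemma card_zero_le (ι : K →+* Qbar) {d : ℕ} (b : Finset (𝓞 K)) (v : Fin 2 → Qbar)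
    (i0 : Fin (d + 1)) (h0 : v 0 ^ (i0 : ℕ) * v 1 ^ (d - i0) = 1) :
    by
      classical
      exact (((Fintype.piFinset (fun _ : Fin (d + 1) => b)).filter
        (fun g => fval (io ι) g v = 0)).card ≤ b.card ^ d) := by
  classical
  have hc : (Fintype.piFinset (fun _ : Fin d => b)).card = b.card ^ d := by
    rw [Fintype.card_piFinset]; simp
  show (((Fintype.piFinset (fun _ : Fin (d + 1) => b)).filter
        (fun g => fval (io ι) g v = 0)).card ≤ b.card ^ d)
  rw [← hc]
  apply Finset.card_le_card_of_injOn (fun g => fun j : Fin d => g (i0.succAbove j))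
  · intro g hg
    rw [Finset.mem_coe, Finset.mem_filter, Fintype.mem_piFinset] at hg
    rw [Finset.mem_coe, Fintype.mem_piFinset]
    exact fun j => hg.1 _
  · intro g hg g' hg' heq
    rw [Finset.mem_coe, Finset.mem_filter] at hg hg'
    have hj : ∀ j : Fin d, g (i0.succAbove j) = g' (i0.succAbove j) := fun j => congrFun heq j
    have e1 := hg.2
    have e2 := hg'.2
    unfold fval at e1 e2
    rw [Fin.sum_univ_succAbove _ i0] at e1 e2
    have e3 : io ι (g i0) = io ι (g' i0) := by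
      have e4 : io ι (g i0) * v 0 ^ (i0 : ℕ) * v 1 ^ (d - i0) = io ι (g i0) := by
        rw [mul_assoc, h0, mul_one]
      have e5 : io ι (g' i0) * v 0 ^ (i0 : ℕ) * v 1 ^ (d - i0) = io ι (g' i0) := by
        rw [mul_assoc, h0, mul_one]
      rw [e4] at e1
      rw [e5] at e2
      simp only [hj] at e1
      exact add_right_cancel (e1.trans e2.symm)
    have e6 := io_inj ι e3
    funext i
    rcases Fin.eq_self_or_eq_succAbove i0 i with h | ⟨j, h⟩
    · rw [h]; exact e6
    · rw [h]; exact hj j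

/-- the polynomial of a form -/
noncomputable def Pf (ι : K →+* Qbar) {d : ℕ} (f : Fin (d + 1) → 𝓞 K) : Polynomial Qbar :=
  ∑ i : Fin (d + 1), Polynomial.C (io ι (f i)) * Polynomial.X ^ (i : ℕ)

lemma Pf_eval (ι : K →+* Qbar) {d : ℕ} (f : Fin (d + 1) → 𝓞 K) (α : Qbar) :
    (Pf ι f).eval α = fval (io ι) f ![α, 1] := by
  unfold Pf fval
  rw [Polynomial.eval_finsetSum]
  refine Finset.sum_congr rfl fun i _ => ?_
  simp

lemma Pf_coeff (ι : K →+* Qbar) {d : ℕ} (f : Fin (d + 1) → 𝓞 K) (i : Fin (d + 1)) :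
    (Pf ι f).coeff i = io ι (f i) := by
  unfold Pf
  rw [Polynomial.finsetSum_coeff, Finset.sum_eq_single i]
  · simp
  · intro j _ hj
    rw [Polynomial.coeff_C_mul, Polynomial.coeff_X_pow, if_neg, mul_zero]
    exact fun h => hj (Fin.ext h.symm)
  · intro h
    exact absurd (Finset.mem_univ _) h

lemma Pf_ne_zero (ι : K →+* Qbar) {d : ℕ} {f : Fin (d + 1) → 𝓞 K} (hf : f ≠ 0) :
    Pf ι f ≠ 0 := by
  intro h
  apply hf
  funext i
  have h1 := Pf_coeff ι f i
  rw [h, Polynomial.coeff_zero] at h1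
  exact io_inj ι (by rw [← h1, Pi.zero_apply, map_zero])

lemma Pf_deg (ι : K →+* Qbar) {d : ℕ} (f : Fin (d + 1) → 𝓞 K) : (Pf ι f).natDegree ≤ d := by
  unfold Pf
  apply Polynomial.natDegree_sum_le_of_forall_le
  intro i _
  refine (Polynomial.natDegree_C_mul_X_pow_le _ _).trans ?_
  have := i.2
  omega

open Classical in
/-- candidates for the common zero -/
noncomputable def cand (ι : K →+* Qbar) {d : ℕ} (f : Fin (d + 1) → 𝓞 K) :
    Finset (Fin 2 → Qbar) :=
  insert ![1, 0] ((Pf ι f).roots.toFinset.image fun α => ![α, 1])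

lemma card_cand (ι : K →+* Qbar) {d : ℕ} (f : Fin (d + 1) → 𝓞 K) : (cand ι f).card ≤ d + 1 := by
  classical
  unfold cand
  refine (Finset.card_insert_le _ _).trans ?_
  have h1 : ((Pf ι f).roots.toFinset.image fun α => (![α, 1] : Fin 2 → Qbar)).card ≤ d :=
    Finset.card_image_le.trans ((Multiset.toFinset_card_le _).trans
      ((Polynomial.card_roots' _).trans (Pf_deg ι f)))
  omega

lemma exists_cand (ι : K →+* Qbar) {d : ℕ} {f : Fin (d + 1) → 𝓞 K} (hf : f ≠ 0)
    (g : Fin (d + 1) → 𝓞 K) (v : Fin 2 → Qbar) (hv : v ≠ 0) (h1 : fval (io ι) f v = 0)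
    (h2 : fval (io ι) g v = 0) : ∃ w ∈ cand ι f, fval (io ι) g w = 0 := by
  classical
  by_cases hv1 : v 1 = 0
  · have hv0 : v 0 ≠ 0 := by
      intro h
      apply hv
      funext a
      fin_cases a
      · exact h
      · exact hv1
    refine ⟨![1, 0], Finset.mem_insert_self _ _, ?_⟩
    have e : (![1, 0] : Fin 2 → Qbar) = fun a => (v 0)⁻¹ * v a := by
      funext a
      fin_cases a
      · simp [hv0]
      · simp [hv1]
    rw [e, fval_smul, h2, mul_zero]
  · have e : (![v 0 / v 1, 1] : Fin 2 → Qbar) = fun a => (v 1)⁻¹ * v a := by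
      funext a
      fin_cases a
      · simp [div_eq_inv_mul]
      · simp [hv1]
    refine ⟨![v 0 / v 1, 1], ?_, ?_⟩
    · apply Finset.mem_insert_of_mem
      rw [Finset.mem_image]
      refine ⟨v 0 / v 1, ?_, rfl⟩
      rw [Multiset.mem_toFinset, Polynomial.mem_roots (Pf_ne_zero ι hf), Polynomial.IsRoot.def,
        Pf_eval, e, fval_smul, h1, mul_zero]
    · rw [e, fval_smul, h2, mul_zero]

open Classical in
/-- the second forms having a common zero with `f` -/
noncomputable def Zf (ι : K →+* Qbar) {d : ℕ} (F : Finset (Fin (d + 1) → 𝓞 K))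
    (f : Fin (d + 1) → 𝓞 K) : Finset (Fin (d + 1) → 𝓞 K) :=
  if f = 0 then F else (cand ι f).biUnion fun v => F.filter fun g => fval (io ι) g v = 0

lemma card_cand_zero (ι : K →+* Qbar) {d : ℕ} (b : Finset (𝓞 K)) (f : Fin (d + 1) → 𝓞 K)
    (v : Fin 2 → Qbar) (hv : v ∈ cand ι f) :
    by
      classical
      exact (((Fintype.piFinset (fun _ : Fin (d + 1) => b)).filter
        (fun g => fval (io ι) g v = 0)).card ≤ b.card ^ d) := by
  classical
  unfold cand at hv
  rw [Finset.mem_insert, Finset.mem_image] at hv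
  rcases hv with rfl | ⟨α, _, rfl⟩
  · exact card_zero_le ι b _ (Fin.last d) (by simp)
  · exact card_zero_le ι b _ 0 (by simp)

theorem deg (hB : S_BALL) : S_DEG := by
  classical
  intro K _ _ ι d hd
  obtain ⟨hball, _⟩ := hB K
  refine ⟨(d + 2) * (3 : ℝ) ^ (finrank ℚ K * (2 * d + 1)), fun H hH => ?_⟩
  obtain ⟨hfin, hcard⟩ := hball H
  set b : Finset (𝓞 K) := hfin.toFinset with hb
  have hbc : b.card = (2 * H + 1) ^ finrank ℚ K := by
    rw [← hcard, Set.ncard_eq_toFinset_card _ hfin]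
  have hmb : ∀ z, z ∈ b ↔ z ∈ ball K H := fun z => hfin.mem_toFinset
  set F : Finset (Fin (d + 1) → 𝓞 K) := Fintype.piFinset (fun _ => b) with hF
  have hFc : F.card = b.card ^ (d + 1) := by
    rw [hF, Fintype.card_piFinset]; simp
  set T : Finset (Fin 2 → Fin (d + 1) → 𝓞 K) :=
    F.biUnion fun f => (Zf ι F f).image fun g => ![f, g] with hT
  have hsub : ({φ | (∀ a i, φ a i ∈ ball K H) ∧ ∃ v : Fin 2 → Qbar, v ≠ 0 ∧
      pval (io ι) φ v = 0} : Set (Fin 2 → Fin (d + 1) → 𝓞 K)) ⊆ ↑T := by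
    rintro φ ⟨h1, v, hv, h2⟩
    rw [Finset.mem_coe, hT, Finset.mem_biUnion]
    have hm : ∀ a, φ a ∈ F := fun a => by
      rw [hF, Fintype.mem_piFinset]
      exact fun i => (hmb _).2 (h1 a i)
    refine ⟨φ 0, hm 0, ?_⟩
    rw [Finset.mem_image]
    refine ⟨φ 1, ?_, by funext a; fin_cases a <;> rfl⟩
    unfold Zf
    split_ifs with h0
    · exact hm 1
    · obtain ⟨w, hw, hw2⟩ := exists_cand ι h0 (φ 1) v hv (congrFun h2 0) (congrFun h2 1)
      rw [Finset.mem_biUnion]
      exact ⟨w, hw, Finset.mem_filter.2 ⟨hm 1, hw2⟩⟩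
  have hZ : ∀ f ∈ F, (Zf ι F f).card ≤
      (if f = 0 then b.card ^ (d + 1) else 0) + (d + 1) * b.card ^ d := by
    intro f _
    unfold Zf
    split_ifs with h0
    · rw [hFc]; exact Nat.le_add_right _ _
    · rw [zero_add]
      refine Finset.card_biUnion_le.trans ?_
      refine (Finset.sum_le_card_nsmul _ _ (b.card ^ d) fun v hv => ?_).trans ?_
      · exact card_cand_zero ι b f v hv
      · rw [smul_eq_mul]
        exact Nat.mul_le_mul_right _ (card_cand ι f)
  have hTc : T.card ≤ b.card ^ (d + 1) + b.card ^ (d + 1) * ((d + 1) * b.card ^ d) := by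
    calc T.card ≤ ∑ f ∈ F, ((Zf ι F f).image fun g => ![f, g]).card := Finset.card_biUnion_le
      _ ≤ ∑ f ∈ F, ((if f = 0 then b.card ^ (d + 1) else 0) + (d + 1) * b.card ^ d) :=
          Finset.sum_le_sum fun f hf => Finset.card_image_le.trans (hZ f hf)
      _ ≤ b.card ^ (d + 1) + b.card ^ (d + 1) * ((d + 1) * b.card ^ d) := by
          rw [Finset.sum_add_distrib, Finset.sum_const, smul_eq_mul, hFc]
          apply Nat.add_le_add_right
          rw [Finset.sum_ite_eq']
          split_ifs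
          · exact le_rfl
          · exact Nat.zero_le _
  have hS := Set.ncard_le_ncard hsub (Finset.finite_toSet T)
  rw [Set.ncard_coe_finset] at hS
  have hN1 : 1 ≤ b.card := by rw [hbc]; exact Nat.one_le_pow _ _ (by omega)
  have h3 : T.card ≤ (d + 2) * b.card ^ (2 * d + 1) := by
    refine hTc.trans ?_
    have e1 : b.card ^ (d + 1) ≤ b.card ^ (2 * d + 1) := Nat.pow_le_pow_right hN1 (by omega)
    have e2 : b.card ^ (d + 1) * ((d + 1) * b.card ^ d) = (d + 1) * b.card ^ (2 * d + 1) := by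
      rw [show 2 * d + 1 = (d + 1) + d by ring, pow_add]
      ring
    rw [e2]
    have e3 : (d + 2) * b.card ^ (2 * d + 1) =
        b.card ^ (2 * d + 1) + (d + 1) * b.card ^ (2 * d + 1) := by ring
    omega
  have h4 : b.card ≤ (3 * H) ^ finrank ℚ K := by
    rw [hbc]
    exact Nat.pow_le_pow_left (by omega) _
  have h5 : b.card ^ (2 * d + 1) ≤ (3 * H) ^ (finrank ℚ K * (2 * d + 1)) := by
    rw [pow_mul]
    exact Nat.pow_le_pow_left h4 _
  have h6 : T.card ≤ (d + 2) * (3 * H) ^ (finrank ℚ K * (2 * d + 1)) :=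
    h3.trans (Nat.mul_le_mul_left _ h5)
  have h7 : (T.card : ℝ) ≤ ((d + 2 : ℕ) : ℝ) * ((3 * H : ℕ) : ℝ) ^ (finrank ℚ K * (2 * d + 1)) := by
    exact_mod_cast h6
  have h8 : (({φ | (∀ a i, φ a i ∈ ball K H) ∧ ∃ v : Fin 2 → Qbar, v ≠ 0 ∧
      pval (io ι) φ v = 0} : Set (Fin 2 → Fin (d + 1) → 𝓞 K)).ncard : ℝ) ≤ T.card := by
    exact_mod_cast hS
  refine h8.trans (h7.trans (le_of_eq ?_))
  push_cast
  rw [mul_pow]
  ring

end Pool.Agent.W214.UB
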